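import Mathlib

/-!
Characters with values `±1` of a finite field of characteristic two, and the elementary bound for
Kloosterman sums by the fourth moment.
-/

namespace Pool.Agent.Q257.C4

open Finset

variable {F : Type*} [Field F] [Fintype F] [CharP F 2]

/-- a nontrivial additive character with values `±1` -/
structure IsChar (ψ : F → ℤ) : Prop where
  val : ∀ x, ψ x = 1 ∨ ψ x = -1
  add : ∀ x y, ψ (x + y) = ψ x * ψ y
  nt : ∃ x, ψ x = -1

variable {ψ : F → ℤ} (h : IsChar ψ)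

include h

omit [Fintype F] [CharP F 2] in
lemma IsChar.zero : ψ 0 = 1 := by
  have h1 := h.add 0 0
  rw [add_zero] at h1
  rcases h.val 0 with h2 | h2
  · exact h2
  · rw [h2] at h1
    norm_num at h1

omit [Fintype F] [CharP F 2] in
lemma IsChar.sq (x : F) : ψ x * ψ x = 1 := by
  rcases h.val x with h2 | h2 <;> rw [h2] <;> norm_num

omit [CharP F 2] in
lemma IsChar.sum_all : ∑ x : F, ψ x = 0 := by
  obtain ⟨x0, hx0⟩ := h.nt
  have h1 : ∑ x : F, ψ x = ∑ x : F, ψ (x + x0) :=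
    (Equiv.sum_comp (Equiv.addRight x0) ψ).symm
  have h2 : ∑ x : F, ψ (x + x0) = -∑ x : F, ψ x := by
    rw [← Finset.sum_neg_distrib]
    apply Finset.sum_congr rfl
    intro x _
    rw [h.add, hx0]
    ring
  rw [h2] at h1
  linarith

omit [CharP F 2] in
lemma IsChar.sum_mul {c : F} (hc : c ≠ 0) : ∑ x : F, ψ (c * x) = 0 := by
  rw [← h.sum_all]
  exact Equiv.sum_comp (Equiv.mulLeft₀ c hc) ψ

omit [CharP F 2] h in
/-- sums over all elements and over the units -/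
lemma sum_units [DecidableEq F] (g : F → ℤ) : ∑ x : F, g x = g 0 + ∑ x : Fˣ, g x := by
  have h1 : ∑ x : F, g x = g 0 + ∑ x ∈ univ.erase (0 : F), g x :=
    (Finset.add_sum_erase univ g (mem_univ 0)).symm
  rw [h1]
  congr 1
  exact Finset.sum_bij' (fun x (hx : x ∈ univ.erase (0 : F)) => Units.mk0 x (ne_of_mem_erase hx))
    (fun (x : Fˣ) _ => (x : F)) (fun a ha => mem_univ _)
    (fun a ha => mem_erase.2 ⟨a.ne_zero, mem_univ _⟩) (fun a ha => rfl) (fun a ha => by simp)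
    (fun a ha => rfl)

omit [CharP F 2] in
lemma IsChar.sum_units_mul [DecidableEq F] {c : F} (hc : c ≠ 0) :
    ∑ x : Fˣ, ψ (c * x) = -1 := by
  have h1 := h.sum_mul hc
  rw [sum_units (fun x => ψ (c * x)), mul_zero, h.zero] at h1
  linarith

omit [CharP F 2] in
lemma IsChar.sum_units_inv [DecidableEq F] {c : F} (hc : c ≠ 0) :
    ∑ x : Fˣ, ψ (c * ((x⁻¹ : Fˣ) : F)) = -1 := by
  rw [← h.sum_units_mul hc]
  exact Equiv.sum_comp (Equiv.inv Fˣ) (fun x : Fˣ => ψ (c * (x : F)))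

/-- the Kloosterman sum -/
def K [DecidableEq F] (ψ : F → ℤ) (u v : F) : ℤ :=
  ∑ x : Fˣ, ψ (u * (x : F) + v * ((x⁻¹ : Fˣ) : F))

omit [CharP F 2] h in
lemma K_scale [DecidableEq F] (u v : F) (s : Fˣ) :
    K ψ (u * s) (v * ((s⁻¹ : Fˣ) : F)) = K ψ u v := by
  unfold K
  rw [← Equiv.sum_comp (Equiv.mulLeft s) (fun x : Fˣ => ψ (u * (x : F) + v * ((x⁻¹ : Fˣ) : F)))]
  apply Finset.sum_congr rfl
  intro x _
  congr 1
  simp only [Equiv.coe_mulLeft, Units.val_mul, mul_inv_rev]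
  ring

/-- the sum of two units -/
def s1 (x : Fˣ × Fˣ) : F := (x.1 : F) + x.2

/-- the sum of the inverses of two units -/
def s2 (x : Fˣ × Fˣ) : F := ((x.1⁻¹ : Fˣ) : F) + ((x.2⁻¹ : Fˣ) : F)

omit [CharP F 2] in
lemma K_sq [DecidableEq F] (u v : F) :
    K ψ u v ^ 2 = ∑ x : Fˣ × Fˣ, ψ (u * s1 x + v * s2 x) := by
  rw [sq, K, Finset.sum_mul_sum, Fintype.sum_prod_type]
  apply Finset.sum_congr rfl
  intro x _
  apply Finset.sum_congr rfl
  intro y _
  rw [← h.add]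
  congr 1
  simp only [s1, s2]
  ring

omit [CharP F 2] in
lemma K_four [DecidableEq F] (u v : F) :
    K ψ u v ^ 4 = ∑ p : (Fˣ × Fˣ) × (Fˣ × Fˣ),
      ψ (u * (s1 p.1 + s1 p.2)) * ψ (v * (s2 p.1 + s2 p.2)) := by
  rw [Fintype.sum_prod_type (f := fun p : (Fˣ × Fˣ) × (Fˣ × Fˣ) =>
    ψ (u * (s1 p.1 + s1 p.2)) * ψ (v * (s2 p.1 + s2 p.2)))]
  rw [show (4 : ℕ) = 2 * 2 by norm_num, pow_mul, K_sq h, sq, Finset.sum_mul_sum]
  apply Finset.sum_congr rfl
  intro x _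
  apply Finset.sum_congr rfl
  intro y _
  rw [← h.add, ← h.add]
  congr 1
  ring

omit h in
/-- the number of solutions -/
lemma card_sol [DecidableEq F] : #{p : (Fˣ × Fˣ) × (Fˣ × Fˣ) | s1 p.1 = s1 p.2 ∧ s2 p.1 = s2 p.2} ≤
    3 * (Fintype.card Fˣ) ^ 2 := by
  have hsub : ({p : (Fˣ × Fˣ) × (Fˣ × Fˣ) | s1 p.1 = s1 p.2 ∧ s2 p.1 = s2 p.2} :
      Finset ((Fˣ × Fˣ) × (Fˣ × Fˣ))) ⊆
      (univ : Finset (Fˣ × Fˣ)).image (fun x => (x, x)) ∪
      ((univ : Finset (Fˣ × Fˣ)).image (fun x => (x, x.swap)) ∪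
      (univ : Finset (Fˣ × Fˣ)).image (fun x => ((x.1, x.1), (x.2, x.2)))) := by
    rintro ⟨⟨a, b⟩, ⟨c, d⟩⟩ hp
    rw [Finset.mem_filter] at hp
    obtain ⟨-, h1, h2⟩ := hp
    simp only [s1, s2, Units.val_inv_eq_inv_val] at h1 h2
    simp only [mem_union, mem_image, mem_univ, true_and]
    by_cases hs : (a : F) + b = 0
    · right; right
      have hab : a = b := by
        apply Units.ext
        exact CharTwo.add_eq_zero.1 hs
      have hcd : c = d := by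
        apply Units.ext
        exact CharTwo.add_eq_zero.1 (h1.symm.trans hs)
      exact ⟨(a, c), by simp [hab, hcd]⟩
    · have hprod : (a : F) * b = c * d := by
        have e1 : (a : F)⁻¹ + (b : F)⁻¹ = (a + b) * ((a : F) * b)⁻¹ := by
          field_simp
          ring
        have e2 : (c : F)⁻¹ + (d : F)⁻¹ = (c + d) * ((c : F) * d)⁻¹ := by
          field_simp
          ring
        rw [e1, e2, ← h1] at h2
        exact inv_injective (mul_left_cancel₀ hs h2)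
      have h3 : ((c : F) - a) * ((c : F) - b) = 0 := by
        linear_combination (-(c : F)) * h1 + hprod
      rcases mul_eq_zero.1 h3 with h4 | h4
      · left
        have hc : c = a := Units.ext (sub_eq_zero.1 h4)
        subst hc
        have hd : b = d := Units.ext (add_left_cancel h1)
        subst hd
        exact ⟨(c, b), rfl⟩
      · right; left
        have hc : c = b := Units.ext (sub_eq_zero.1 h4)
        subst hc
        have hd : a = d := by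
          apply Units.ext
          have : (a : F) + c = d + c := by rw [h1]; ring
          exact add_right_cancel this
        subst hd
        exact ⟨(a, c), rfl⟩
  refine (card_le_card hsub).trans ?_
  have hX : #(univ : Finset (Fˣ × Fˣ)) = (Fintype.card Fˣ) ^ 2 := by
    rw [card_univ, Fintype.card_prod, sq]
  calc _ ≤ #((univ : Finset (Fˣ × Fˣ)).image (fun x => (x, x))) +
        (#((univ : Finset (Fˣ × Fˣ)).image (fun x => (x, x.swap))) +
        #((univ : Finset (Fˣ × Fˣ)).image (fun x => ((x.1, x.1), (x.2, x.2))))) :=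
        (card_union_le _ _).trans (add_le_add le_rfl (card_union_le _ _))
    _ ≤ #(univ : Finset (Fˣ × Fˣ)) + (#(univ : Finset (Fˣ × Fˣ)) +
        #(univ : Finset (Fˣ × Fˣ))) :=
        add_le_add card_image_le (add_le_add card_image_le card_image_le)
    _ = 3 * (Fintype.card Fˣ) ^ 2 := by rw [hX]; ring

/-- the fourth moment -/
lemma moment [DecidableEq F] :
    ∑ w : F × F, K ψ w.1 w.2 ^ 4 ≤ (Fintype.card F : ℤ) ^ 2 * (3 * (Fintype.card Fˣ : ℤ) ^ 2) := by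
  have hone : ∀ c : F, ∑ u : F, ψ (u * c) = if c = 0 then (Fintype.card F : ℤ) else 0 := by
    intro c
    by_cases hc : c = 0
    · rw [if_pos hc, hc]
      simp [h.zero]
    · rw [if_neg hc, ← h.sum_mul hc]
      exact Finset.sum_congr rfl fun x _ => by rw [mul_comm]
  have h1 : ∑ w : F × F, K ψ w.1 w.2 ^ 4 = ∑ p : (Fˣ × Fˣ) × (Fˣ × Fˣ),
      (∑ u : F, ψ (u * (s1 p.1 + s1 p.2))) * (∑ v : F, ψ (v * (s2 p.1 + s2 p.2))) := by
    calc ∑ w : F × F, K ψ w.1 w.2 ^ 4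
        = ∑ w : F × F, ∑ p : (Fˣ × Fˣ) × (Fˣ × Fˣ),
          ψ (w.1 * (s1 p.1 + s1 p.2)) * ψ (w.2 * (s2 p.1 + s2 p.2)) :=
          Finset.sum_congr rfl fun w _ => K_four h w.1 w.2
      _ = ∑ p : (Fˣ × Fˣ) × (Fˣ × Fˣ), ∑ w : F × F,
          ψ (w.1 * (s1 p.1 + s1 p.2)) * ψ (w.2 * (s2 p.1 + s2 p.2)) := Finset.sum_comm
      _ = _ := by
          apply Finset.sum_congr rfl
          intro p _
          rw [Finset.sum_mul_sum, Fintype.sum_prod_type]
  rw [h1]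
  have h2 : ∀ p : (Fˣ × Fˣ) × (Fˣ × Fˣ),
      (∑ u : F, ψ (u * (s1 p.1 + s1 p.2))) * (∑ v : F, ψ (v * (s2 p.1 + s2 p.2))) =
      if s1 p.1 = s1 p.2 ∧ s2 p.1 = s2 p.2 then (Fintype.card F : ℤ) ^ 2 else 0 := by
    intro p
    rw [hone, hone]
    have e1 : s1 p.1 + s1 p.2 = 0 ↔ s1 p.1 = s1 p.2 := CharTwo.add_eq_zero
    have e2 : s2 p.1 + s2 p.2 = 0 ↔ s2 p.1 = s2 p.2 := CharTwo.add_eq_zero
    by_cases c1 : s1 p.1 = s1 p.2 <;> by_cases c2 : s2 p.1 = s2 p.2 <;>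
      simp [e1, e2, c1, c2, sq, CharTwo.add_self_eq_zero]
  rw [Finset.sum_congr rfl fun p _ => h2 p, ← Finset.sum_filter, Finset.sum_const, nsmul_eq_mul,
    mul_comm]
  apply mul_le_mul_of_nonneg_left _ (by positivity)
  have h3 := card_sol (F := F)
  have h4 : ((#{p : (Fˣ × Fˣ) × (Fˣ × Fˣ) | s1 p.1 = s1 p.2 ∧ s2 p.1 = s2 p.2} : ℕ) : ℤ) ≤
      ((3 * (Fintype.card Fˣ) ^ 2 : ℕ) : ℤ) := Int.ofNat_le.2 h3
  rw [Nat.cast_mul, Nat.cast_pow] at h4
  exact h4

omit [CharP F 2] h in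
/-- the orbit of a pair -/
lemma orbit_sum [DecidableEq F] {u : F} (v : F) (hu : u ≠ 0) (g : F × F → ℤ)
    (hg : ∀ w, 0 ≤ g w) :
    ∑ s : Fˣ, g (u * s, v * ((s⁻¹ : Fˣ) : F)) ≤ ∑ w : F × F, g w := by
  have hinj : ∀ a ∈ (univ : Finset Fˣ), ∀ b ∈ (univ : Finset Fˣ),
      ((u * a, v * ((a⁻¹ : Fˣ) : F)) : F × F) = (u * b, v * ((b⁻¹ : Fˣ) : F)) → a = b := by
    intro a _ b _ hab
    exact Units.ext (mul_left_cancel₀ hu (congrArg Prod.fst hab))
  calc ∑ s : Fˣ, g (u * s, v * ((s⁻¹ : Fˣ) : F))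
      = ∑ w ∈ (univ : Finset Fˣ).image (fun s : Fˣ => ((u * s, v * ((s⁻¹ : Fˣ) : F)) : F × F)),
        g w := (Finset.sum_image hinj).symm
    _ ≤ ∑ w : F × F, g w :=
        Finset.sum_le_sum_of_subset_of_nonneg (subset_univ _) fun w _ _ => hg w

/-- the elementary bound -/
theorem K_bound [DecidableEq F] {u v : F} (hu : u ≠ 0) :
    K ψ u v ^ 4 ≤ 3 * (Fintype.card F : ℤ) ^ 3 := by
  have h2 := orbit_sum v hu (fun w : F × F => K ψ w.1 w.2 ^ 4) (fun w => by positivity)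
  have h3 : ∑ s : Fˣ, K ψ (u * s) (v * ((s⁻¹ : Fˣ) : F)) ^ 4 =
      (Fintype.card Fˣ : ℤ) * K ψ u v ^ 4 := by
    have h4 : ∀ s : Fˣ, K ψ (u * s) (v * ((s⁻¹ : Fˣ) : F)) ^ 4 = K ψ u v ^ 4 := fun s => by
      rw [K_scale u v s]
    rw [Finset.sum_congr rfl fun s _ => h4 s, Finset.sum_const, card_univ, nsmul_eq_mul]
  have h1 : (Fintype.card Fˣ : ℤ) * K ψ u v ^ 4 ≤ ∑ w : F × F, K ψ w.1 w.2 ^ 4 := by
    rw [← h3]
    exact h2
  have h4 := h1.trans (moment h)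
  have h5 : (Fintype.card Fˣ : ℤ) ≤ Fintype.card F := by
    have : Fintype.card Fˣ ≤ Fintype.card F := Fintype.card_le_of_injective _ Units.val_injective
    exact_mod_cast this
  have h6 : 0 < (Fintype.card Fˣ : ℤ) := by exact_mod_cast Fintype.card_pos
  generalize (Fintype.card Fˣ : ℤ) = c at *
  generalize (Fintype.card F : ℤ) = q at *
  generalize K ψ u v ^ 4 = k at *
  have h7 : c * k ≤ c * (3 * q ^ 2 * c) := by linarith
  have h8 : k ≤ 3 * q ^ 2 * c := le_of_mul_le_mul_left h7 h6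
  nlinarith [sq_nonneg q]

end Pool.Agent.Q257.C4
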