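import Mathlib

/-!
Combinatorial lemmas: a greedy choice of disjoint sets, and a colouring in which every colour class
contains a set of each of the given families of disjoint sets (sets with at most `r` elements).
-/

namespace Pool.Agent.Q257.C4

open Finset

/-- greedy choice of `m` pairwise disjoint sets -/
theorem greedy {ι α : Type*} [DecidableEq ι] [DecidableEq α] (G : Finset ι) (f : ι → Finset α)
    (r D : ℕ) (hne : ∀ g ∈ G, (f g).Nonempty) (hr : ∀ g ∈ G, #(f g) ≤ r)
    (hD : ∀ b, #{g ∈ G | b ∈ f g} ≤ D) (m : ℕ) (hm : r * m * D < #G) :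
    ∃ s : Finset ι, s ⊆ G ∧ #s = m ∧ (∀ g ∈ s, ∀ g' ∈ s, g ≠ g' → Disjoint (f g) (f g')) := by
  induction m with
  | zero => exact ⟨∅, by simp, by simp, by simp⟩
  | succ m ih =>
    have hmono : r * m * D ≤ r * (m + 1) * D :=
      Nat.mul_le_mul_right _ (Nat.mul_le_mul_left _ (Nat.le_succ m))
    obtain ⟨s, hs1, hs2, hs3⟩ := ih (lt_of_le_of_lt hmono hm)
    set U := s.biUnion f with hU
    have hUc : #U ≤ r * m := by
      calc #U ≤ ∑ g ∈ s, #(f g) := card_biUnion_le
        _ ≤ ∑ g ∈ s, r := Finset.sum_le_sum fun g hg => hr g (hs1 hg)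
        _ = r * m := by rw [Finset.sum_const, hs2, smul_eq_mul, mul_comm]
    set M := U.biUnion (fun b => {g ∈ G | b ∈ f g}) with hM
    have hMc : #M ≤ r * m * D := by
      calc #M ≤ ∑ b ∈ U, #{g ∈ G | b ∈ f g} := card_biUnion_le
        _ ≤ ∑ b ∈ U, D := Finset.sum_le_sum fun b _ => hD b
        _ = #U * D := by rw [Finset.sum_const, smul_eq_mul]
        _ ≤ r * m * D := Nat.mul_le_mul_right _ hUc
    have hlt : #M < #G := lt_of_le_of_lt hMc (lt_of_le_of_lt hmono hm)
    obtain ⟨g, hg, hgM⟩ : ∃ g ∈ G, g ∉ M := by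
      by_contra hcon
      push Not at hcon
      exact absurd (card_le_card (fun g hg => hcon g hg)) (not_le.2 hlt)
    have hdis : ∀ g' ∈ s, Disjoint (f g) (f g') := by
      intro g' hg'
      rw [Finset.disjoint_left]
      intro b hb hb'
      apply hgM
      rw [hM, mem_biUnion]
      exact ⟨b, mem_biUnion.2 ⟨g', hg', hb'⟩, by simp [hg, hb]⟩
    have hgs : g ∉ s := by
      intro h
      have := hdis g h
      rw [disjoint_self] at this
      have h2 := hne g hg
      rw [this] at h2
      simp at h2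
    refine ⟨insert g s, ?_, ?_, ?_⟩
    · intro x hx
      rw [mem_insert] at hx
      rcases hx with rfl | hx
      · exact hg
      · exact hs1 hx
    · rw [card_insert_of_notMem hgs, hs2]
    · intro x hx y hy hxy
      rw [mem_insert] at hx hy
      rcases hx with rfl | hx <;> rcases hy with rfl | hy
      · exact absurd rfl hxy
      · exact hdis y hy
      · exact (hdis x hx).symm
      · exact hs3 x hx y hy hxy

/-- the colourings in which no set of the family has the colour `i` -/
noncomputable def Bad {ι α : Type*} [Fintype α] [DecidableEq α] {k : ℕ} (f : ι → Finset α)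
    (s : Finset ι) (i : Fin k) : Finset (α → Fin k) := by
  classical
  exact {χ | ∀ g ∈ s, ¬ ∀ x ∈ f g, χ x = i}

lemma mem_Bad {ι α : Type*} [Fintype α] [DecidableEq α] {k : ℕ} (f : ι → Finset α)
    (s : Finset ι) (i : Fin k) (χ : α → Fin k) :
    χ ∈ Bad f s i ↔ ∀ g ∈ s, ¬ ∀ x ∈ f g, χ x = i := by
  unfold Bad
  simp

/-- the number of bad colourings -/
theorem card_Bad {ι α : Type*} [DecidableEq ι] [Fintype α] [DecidableEq α] {k : ℕ} (r : ℕ)
    (f : ι → Finset α) (s : Finset ι) (i : Fin k) (hr : ∀ g ∈ s, #(f g) ≤ r)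
    (hd : ∀ g ∈ s, ∀ g' ∈ s, g ≠ g' → Disjoint (f g) (f g')) :
    #(Bad f s i) * (k ^ r) ^ #s ≤ (k ^ r - 1) ^ #s * k ^ Fintype.card α := by
  classical
  induction s using Finset.induction_on with
  | empty =>
    simp only [card_empty, pow_zero, mul_one, one_mul]
    calc #(Bad f ∅ i) ≤ #(univ : Finset (α → Fin k)) := card_le_univ _
      _ = k ^ Fintype.card α := by simp
  | insert g s hgs ih =>
    have ih' := ih (fun g' hg' => hr g' (mem_insert_of_mem hg'))
      (fun g1 h1 g2 h2 => hd g1 (mem_insert_of_mem h1) g2 (mem_insert_of_mem h2))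
    set B' := Bad f s i with hB'
    have hk0 : 0 < k := Nat.pos_of_ne_zero (by rintro rfl; exact i.elim0)
    have hsplit : Bad f (insert g s) i = {χ ∈ B' | ¬ ∀ x ∈ f g, χ x = i} := by
      ext χ
      rw [mem_filter, hB', mem_Bad, mem_Bad]
      constructor
      · intro h
        exact ⟨fun g' hg' => h g' (mem_insert_of_mem hg'), h g (mem_insert_self _ _)⟩
      · rintro ⟨h1, h2⟩ g' hg'
        rw [mem_insert] at hg'
        rcases hg' with rfl | hg'
        · exact h2
        · exact h1 g' hg'
    set C := {χ ∈ B' | ∀ x ∈ f g, χ x = i} with hC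
    have hcard : #C + #(Bad f (insert g s) i) = #B' := by
      rw [hsplit, hC]
      exact Finset.card_filter_add_card_filter_not _
    have hinj : #B' ≤ #C * k ^ r := by
      have h1 : #B' ≤ #(C ×ˢ (univ : Finset ({x // x ∈ f g} → Fin k))) := by
        apply Finset.card_le_card_of_injOn
          (fun χ => ((fun x => if x ∈ f g then i else χ x), fun x : {x // x ∈ f g} => χ x.1))
        · intro χ hχ
          have hχ' : χ ∈ B' := hχ
          rw [hB', mem_Bad] at hχ'
          simp only [coe_product, Set.mem_prod, mem_coe, mem_univ, and_true]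
          rw [hC, mem_filter, hB', mem_Bad]
          refine ⟨?_, fun x hx => by simp [hx]⟩
          intro g' hg' hall
          apply hχ' g' hg'
          intro x hx
          have h2 := hall x hx
          have h3 : x ∉ f g := by
            intro h4'
            have hne : g ≠ g' := fun h => hgs (h ▸ hg')
            exact (Finset.disjoint_left.1 (hd g (mem_insert_self _ _) g' (mem_insert_of_mem hg')
              hne)) h4' hx
          rwa [if_neg h3] at h2
        · intro χ hχ χ' hχ' he
          simp only [Prod.mk.injEq] at he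
          obtain ⟨he1, he2⟩ := he
          funext x
          by_cases hx : x ∈ f g
          · exact congrFun he2 ⟨x, hx⟩
          · have := congrFun he1 x
            simpa [hx] using this
      have h2 : #(C ×ˢ (univ : Finset ({x // x ∈ f g} → Fin k))) ≤ #C * k ^ r := by
        rw [card_product, card_univ, Fintype.card_fun, Fintype.card_fin, Fintype.card_coe]
        exact Nat.mul_le_mul_left _ (Nat.pow_le_pow_right hk0 (hr g (mem_insert_self _ _)))
      exact h1.trans h2
    rw [card_insert_of_notMem hgs]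
    have hk : 1 ≤ k ^ r := Nat.one_le_pow _ _ hk0
    obtain ⟨K, hK⟩ : ∃ K, k ^ r = K + 1 := ⟨k ^ r - 1, by omega⟩
    rw [hK] at hinj ih' ⊢
    rw [Nat.add_sub_cancel] at ih' ⊢
    have hkey : #(Bad f (insert g s) i) * (K + 1) ≤ K * #B' := by nlinarith
    calc #(Bad f (insert g s) i) * (K + 1) ^ (#s + 1)
        = (#(Bad f (insert g s) i) * (K + 1)) * (K + 1) ^ #s := by ring
      _ ≤ (K * #B') * (K + 1) ^ #s := Nat.mul_le_mul_right _ hkey
      _ = K * (#B' * (K + 1) ^ #s) := by ring
      _ ≤ K * (K ^ #s * k ^ Fintype.card α) := Nat.mul_le_mul_left _ ih'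
      _ = K ^ (#s + 1) * k ^ Fintype.card α := by ring

/-- a colour class that contains a set of each of the families, and is small -/
theorem exists_class {ι α π : Type*} [DecidableEq ι] [Fintype α] [DecidableEq α] [Fintype π]
    {k : ℕ} (r : ℕ) (hk : 0 < k) (f : π → ι → Finset α) (s : π → Finset ι) (m n : ℕ)
    (hs : ∀ p, #(s p) = m) (hr : ∀ p, ∀ g ∈ s p, #(f p g) ≤ r)
    (hd : ∀ p, ∀ g ∈ s p, ∀ g' ∈ s p, g ≠ g' → Disjoint (f p g) (f p g'))
    (hlt : Fintype.card π * k * (k ^ r - 1) ^ m < (k ^ r) ^ m) (hn : Fintype.card α ≤ k * n) :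
    ∃ A : Finset α, #A ≤ n ∧ ∀ p, ∃ g ∈ s p, f p g ⊆ A := by
  classical
  have : NeZero k := ⟨hk.ne'⟩
  obtain ⟨χ, hχ⟩ : ∃ χ : α → Fin k, ∀ p i, χ ∉ Bad (f p) (s p) i := by
    by_contra hcon
    push Not at hcon
    have h1 : (univ : Finset (α → Fin k)) ⊆
        (univ : Finset (π × Fin k)).biUnion (fun pi => Bad (f pi.1) (s pi.1) pi.2) := by
      intro χ _
      obtain ⟨p, i, h⟩ := hcon χ
      exact mem_biUnion.2 ⟨(p, i), mem_univ _, h⟩
    have h2 := (card_le_card h1).trans card_biUnion_le
    have h3 : k ^ Fintype.card α * (k ^ r) ^ m ≤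
        (Fintype.card π * k * (k ^ r - 1) ^ m) * k ^ Fintype.card α := by
      calc k ^ Fintype.card α * (k ^ r) ^ m
          = #(univ : Finset (α → Fin k)) * (k ^ r) ^ m := by simp
        _ ≤ (∑ pi : π × Fin k, #(Bad (f pi.1) (s pi.1) pi.2)) * (k ^ r) ^ m :=
            Nat.mul_le_mul_right _ h2
        _ = ∑ pi : π × Fin k, #(Bad (f pi.1) (s pi.1) pi.2) * (k ^ r) ^ m := by
            rw [Finset.sum_mul]
        _ ≤ ∑ pi : π × Fin k, (k ^ r - 1) ^ m * k ^ Fintype.card α := by
            apply Finset.sum_le_sum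
            intro pi _
            have := card_Bad r (f pi.1) (s pi.1) pi.2 (hr pi.1) (hd pi.1)
            rwa [hs pi.1] at this
        _ = (Fintype.card π * k * (k ^ r - 1) ^ m) * k ^ Fintype.card α := by
            rw [Finset.sum_const, card_univ, Fintype.card_prod, Fintype.card_fin, smul_eq_mul]
            ring
    have h5 : 0 < k ^ Fintype.card α := Nat.pow_pos hk
    have h6 : (k ^ r) ^ m ≤ Fintype.card π * k * (k ^ r - 1) ^ m := by
      apply Nat.le_of_mul_le_mul_left _ h5
      rw [mul_comm (k ^ Fintype.card α) (Fintype.card π * k * (k ^ r - 1) ^ m)]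
      exact h3
    exact absurd hlt (not_lt.2 h6)
  obtain ⟨i, hi⟩ := Fintype.exists_card_fiber_le_of_card_le_mul (f := χ) (n := n)
    (by rw [Fintype.card_fin]; exact hn)
  refine ⟨(univ : Finset α).filter (fun x => χ x = i), hi, fun p => ?_⟩
  have h1 := hχ p i
  rw [mem_Bad] at h1
  push Not at h1
  obtain ⟨g, hg, h2⟩ := h1
  exact ⟨g, hg, fun x hx => by simp [h2 x hx]⟩

end Pool.Agent.Q257.C4
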