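import Pool.Agent.Q257.C4.Char

/-!
The number of paths of length three between two vertices.
-/

namespace Pool.Agent.Q257.C4

open Finset

variable {F : Type*} [Field F] [Fintype F] [CharP F 2] [DecidableEq F] {ψ : F → ℤ} (h : IsChar ψ)

include h

lemma K_small (hq : 12288 ≤ Fintype.card F) {u : F} (v : F) (hu : u ≠ 0) :
    8 * |K ψ u v| ≤ (Fintype.card F : ℤ) := by
  have h1 := K_bound h (v := v) hu
  have hq' : (12288 : ℤ) ≤ (Fintype.card F : ℤ) := by exact_mod_cast hq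
  generalize (Fintype.card F : ℤ) = q at *
  by_contra hcon
  push Not at hcon
  have h2 : q ^ 4 < (8 * |K ψ u v|) ^ 4 := pow_lt_pow_left₀ hcon (by linarith) (by norm_num)
  rw [mul_pow, Even.pow_abs (by decide)] at h2
  have h3 : q ^ 4 = q * q ^ 3 := by ring
  have h4 : 0 < q ^ 3 := by
    apply pow_pos
    linarith
  nlinarith

omit [Fintype F] [CharP F 2] [DecidableEq F] in
lemma ind (x y : F) : (1 - ψ x) * (1 - ψ y) = if ψ x = -1 ∧ ψ y = -1 then 4 else 0 := by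
  rcases h.val x with h1 | h1 <;> rcases h.val y with h2 | h2 <;> rw [h1, h2] <;> norm_num

lemma count1 {κ p : F} (hκ0 : κ ≠ 0) (hκ : κ ≠ 1) (hp : ψ p = -1) :
    4 * (#{x : F | ψ x = -1 ∧ ψ (κ * x + p) = -1} : ℤ) = Fintype.card F := by
  have h1 : ∑ x : F, (1 - ψ x) * (1 - ψ (κ * x + p)) =
      4 * (#{x : F | ψ x = -1 ∧ ψ (κ * x + p) = -1} : ℤ) := by
    rw [Finset.sum_congr rfl fun x _ => ind h x (κ * x + p), ← Finset.sum_filter,
      Finset.sum_const, nsmul_eq_mul, mul_comm]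
  rw [← h1]
  have hκ' : 1 + κ ≠ 0 := fun h0 => hκ (CharTwo.add_eq_zero.1 h0).symm
  have h2 : ∀ x : F, (1 - ψ x) * (1 - ψ (κ * x + p)) =
      1 - ψ x + ψ (κ * x) - ψ ((1 + κ) * x) := by
    intro x
    rw [add_mul, one_mul, h.add, h.add, hp]
    ring
  rw [Finset.sum_congr rfl fun x _ => h2 x, Finset.sum_sub_distrib, Finset.sum_add_distrib,
    Finset.sum_sub_distrib, h.sum_all, h.sum_mul hκ0, h.sum_mul hκ']
  simp

lemma count2 (hq : 12288 ≤ Fintype.card F) {P R Θ : F} (hP : P ≠ 0) (hΘ : Θ ≠ 0) :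
    Fintype.card F ≤ 8 * #{y : F | y ≠ 0 ∧ ψ (P + P * y) = -1 ∧ ψ (R + Θ * y⁻¹) = -1} := by
  have h1 : ∑ y : F, (if y ≠ 0 ∧ ψ (P + P * y) = -1 ∧ ψ (R + Θ * y⁻¹) = -1 then (4 : ℤ) else 0) =
      4 * (#{y : F | y ≠ 0 ∧ ψ (P + P * y) = -1 ∧ ψ (R + Θ * y⁻¹) = -1} : ℤ) := by
    rw [← Finset.sum_filter, Finset.sum_const, nsmul_eq_mul, mul_comm]
  rw [sum_units] at h1
  have h2 : ∀ y : Fˣ, (if (y : F) ≠ 0 ∧ ψ (P + P * (y : F)) = -1 ∧ ψ (R + Θ * (y : F)⁻¹) = -1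
      then (4 : ℤ) else 0) = 1 - ψ P * ψ (P * (y : F)) - ψ R * ψ (Θ * ((y⁻¹ : Fˣ) : F)) +
        ψ P * ψ R * ψ (P * (y : F) + Θ * ((y⁻¹ : Fˣ) : F)) := by
    intro y
    have h3 := ind h (P + P * (y : F)) (R + Θ * (y : F)⁻¹)
    have h4 : ((y : F) ≠ 0 ∧ ψ (P + P * (y : F)) = -1 ∧ ψ (R + Θ * (y : F)⁻¹) = -1) ↔
        (ψ (P + P * (y : F)) = -1 ∧ ψ (R + Θ * (y : F)⁻¹) = -1) :=
      ⟨fun hh => hh.2, fun hh => ⟨y.ne_zero, hh⟩⟩
    rw [if_congr h4 rfl rfl, ← h3, Units.val_inv_eq_inv_val, h.add, h.add, h.add]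
    ring
  rw [Finset.sum_congr rfl fun y _ => h2 y, Finset.sum_add_distrib, Finset.sum_sub_distrib,
    Finset.sum_sub_distrib, ← Finset.mul_sum, ← Finset.mul_sum, ← Finset.mul_sum,
    h.sum_units_mul hP, h.sum_units_inv hΘ] at h1
  have h5 : ∑ y : Fˣ, ψ (P * (y : F) + Θ * ((y⁻¹ : Fˣ) : F)) = K ψ P Θ := rfl
  have h6 : ∑ _y : Fˣ, (1 : ℤ) = (Fintype.card F : ℤ) - 1 := by
    have := sum_units (fun _ : F => (1 : ℤ))
    simp only [Finset.sum_const, card_univ, nsmul_eq_mul, mul_one] at this ⊢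
    linarith
  rw [h5, h6] at h1
  have h7 := K_small h hq Θ hP
  have h8 : -|K ψ P Θ| ≤ ψ P * ψ R * K ψ P Θ := by
    have h9 := neg_abs_le (K ψ P Θ)
    have h10 := le_abs_self (K ψ P Θ)
    rcases h.val P with h11 | h11 <;> rcases h.val R with h12 | h12 <;> rw [h11, h12] <;>
      linarith
  have h13 : -1 ≤ ψ P ∧ -1 ≤ ψ R := by
    constructor
    · rcases h.val P with h11 | h11 <;> rw [h11] <;> norm_num
    · rcases h.val R with h11 | h11 <;> rw [h11] <;> norm_num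
  have hq' : (12288 : ℤ) ≤ (Fintype.card F : ℤ) := by exact_mod_cast hq
  have h14 : (Fintype.card F : ℤ) ≤
      8 * (#{y : F | y ≠ 0 ∧ ψ (P + P * y) = -1 ∧ ψ (R + Θ * y⁻¹) = -1} : ℤ) := by
    simp only [ne_eq, not_true_eq_false, false_and, if_false, zero_add] at h1
    simp only [ne_eq]
    linarith [h13.1, h13.2]
  exact_mod_cast h14

/-- the paths of length three -/
theorem fam (hq : 12288 ≤ Fintype.card F) {p r δ : F} (hp : ψ p = -1) (hr : ψ r = -1)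
    (hna : p * r * δ ≠ 1) (hne : ¬ (p = r ∧ δ = 0)) :
    ∃ (G : Finset F) (α β : F → F), Fintype.card F ≤ 8 * #G ∧
      (∀ i ∈ G, ∀ j ∈ G, α i = α j → i = j) ∧ (∀ i ∈ G, ∀ j ∈ G, β i = β j → i = j) ∧
      ∀ i ∈ G, ψ (α i) = -1 ∧ ψ (β i) = -1 ∧
        p * r * δ * (α i * β i) = r * β i + p * r + p * α i := by
  have hnz : ∀ x, ψ x = -1 → x ≠ 0 := by
    rintro x hx rfl
    rw [h.zero] at hx
    norm_num at hx
  have hp0 := hnz p hp
  have hr0 := hnz r hr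
  by_cases hδ : δ = 0
  · have hpr : p ≠ r := fun hh => hne ⟨hh, hδ⟩
    refine ⟨({x : F | ψ x = -1 ∧ ψ (p / r * x + p) = -1} : Finset F), fun x => x,
      fun x => p / r * x + p, ?_, ?_, ?_, ?_⟩
    · have h1 := count1 h (κ := p / r) (p := p) (div_ne_zero hp0 hr0)
        (fun hh => hpr ((div_eq_one_iff_eq hr0).1 hh)) hp
      have h2 : 4 * #{x : F | ψ x = -1 ∧ ψ (p / r * x + p) = -1} = Fintype.card F := by
        exact_mod_cast h1
      omega
    · intro i _ j _ hij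
      exact hij
    · intro i _ j _ hij
      exact mul_left_cancel₀ (div_ne_zero hp0 hr0) (add_right_cancel hij)
    · intro i hi
      rw [mem_filter] at hi
      refine ⟨hi.2.1, hi.2.2, ?_⟩
      rw [hδ]
      have h2 : (2 : F) = 0 := CharTwo.two_eq_zero
      have h3 : r * (p / r * i + p) = p * i + r * p := by
        field_simp
      rw [h3]
      linear_combination (-(p * i) - p * r) * h2
  · set P := 1 / (p * δ) with hP
    set R := 1 / (r * δ) with hR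
    set Θ := (1 + p * r * δ) / (r * δ) with hΘ
    have hP0 : P ≠ 0 := one_div_ne_zero (mul_ne_zero hp0 hδ)
    have hΘ0 : Θ ≠ 0 := by
      apply div_ne_zero _ (mul_ne_zero hr0 hδ)
      intro hh
      exact hna (CharTwo.add_eq_zero.1 hh).symm
    refine ⟨({y : F | y ≠ 0 ∧ ψ (P + P * y) = -1 ∧ ψ (R + Θ * y⁻¹) = -1} : Finset F),
      fun y => P + P * y, fun y => R + Θ * y⁻¹, count2 h hq hP0 hΘ0, ?_, ?_, ?_⟩
    · intro i _ j _ hij
      exact mul_left_cancel₀ hP0 (add_left_cancel hij)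
    · intro i _ j _ hij
      exact inv_injective (mul_left_cancel₀ hΘ0 (add_left_cancel hij))
    · intro i hi
      rw [mem_filter] at hi
      obtain ⟨-, hi0, hi1, hi2⟩ := hi
      refine ⟨hi1, hi2, ?_⟩
      rw [hP, hR, hΘ]
      field_simp
      ring

end Pool.Agent.Q257.C4
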