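import Pool.Agent.Q257.C4.Fam
import Pool.Agent.Q257.C4.Comb

/-!
Triangle-free `C₄`-saturated graphs.
-/

namespace Pool.Agent.Q257.C4

open Finset

section Graph

variable {F : Type*} [Field F] [CharP F 2]

/-- the relation -/
def Rel (x y : F × F) : Prop := x.1 * y.1 * (x.2 + y.2) = 1

omit [CharP F 2] in
lemma Rel.symm {x y : F × F} (h : Rel x y) : Rel y x := by
  unfold Rel at *
  rw [← h]
  ring

lemma Rel.irrefl (x : F × F) : ¬ Rel x x := by
  unfold Rel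
  rw [CharTwo.add_self_eq_zero, mul_zero]
  exact zero_ne_one

lemma Rel.ne {x y : F × F} (h : Rel x y) : x ≠ y := by
  rintro rfl
  exact Rel.irrefl x h

/-- the graph -/
def Gr : SimpleGraph (F × F) where
  Adj x y := Rel x y
  symm := ⟨fun _ _ h => h.symm⟩
  loopless := ⟨fun x h => Rel.irrefl x h⟩

omit [CharP F 2] in
lemma Rel.ne_zero {x y : F × F} (h : Rel x y) : x.1 ≠ 0 ∧ y.1 ≠ 0 ∧ x.2 + y.2 ≠ 0 := by
  unfold Rel at h
  refine ⟨?_, ?_, ?_⟩ <;> intro h0 <;> rw [h0] at h <;> simp at h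

/-- no 4-cycles -/
lemma no_four {x y y' z : F × F} (h1 : Rel x y) (h2 : Rel y z) (h3 : Rel x y') (h4 : Rel y' z)
    (hne : x ≠ z) : y = y' := by
  obtain ⟨a1, a2, -⟩ := h1.ne_zero
  obtain ⟨a3, a4, -⟩ := h4.ne_zero
  unfold Rel at h1 h2 h3 h4
  have h2' : (2 : F) = 0 := CharTwo.two_eq_zero
  have e1 : y.1 * (x.1 * z.1 * (x.2 + z.2)) = x.1 + z.1 := by
    linear_combination z.1 * h1 + x.1 * h2 - x.1 * z.1 * y.1 * y.2 * h2'
  have e2 : y'.1 * (x.1 * z.1 * (x.2 + z.2)) = x.1 + z.1 := by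
    linear_combination z.1 * h3 + x.1 * h4 - x.1 * z.1 * y'.1 * y'.2 * h2'
  have hD : x.1 * z.1 * (x.2 + z.2) ≠ 0 := by
    intro h0
    rw [h0, mul_zero] at e1
    have h5 : x.1 = z.1 := CharTwo.add_eq_zero.1 e1.symm
    have h6 : x.2 + z.2 = 0 := by
      rcases mul_eq_zero.1 h0 with h7 | h7
      · exact absurd h7 (mul_ne_zero a1 a4)
      · exact h7
    exact hne (Prod.ext h5 (CharTwo.add_eq_zero.1 h6))
  have h5 : y.1 = y'.1 := mul_right_cancel₀ hD (e1.trans e2.symm)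
  have h6 : x.1 * y.1 * (x.2 + y.2) = x.1 * y.1 * (x.2 + y'.2) := by
    rw [h1, h5, h3]
  exact Prod.ext h5 (add_left_cancel (mul_left_cancel₀ (mul_ne_zero a1 a2) h6))

/-- no triangles -/
lemma no_three {ψ : F → ℤ} (hψ : IsChar ψ) {x y z : F × F} (hx : ψ x.1 = -1) (hy : ψ y.1 = -1)
    (hz : ψ z.1 = -1) (h1 : Rel x y) (h2 : Rel y z) (h3 : Rel x z) : False := by
  unfold Rel at h1 h2 h3
  have h2' : (2 : F) = 0 := CharTwo.two_eq_zero
  have e : x.1 + y.1 + z.1 = 0 := by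
    linear_combination -z.1 * h1 - x.1 * h2 - y.1 * h3 +
      (x.1 * y.1 * z.1 * (x.2 + y.2 + z.2)) * h2'
  have h4 := hψ.add (x.1 + y.1) z.1
  rw [e, hψ.zero, hψ.add, hx, hy, hz] at h4
  norm_num at h4

/-- a path of length three -/
lemma path {x v : F × F} (hx : x.1 ≠ 0) (hv : v.1 ≠ 0) {a b : F} (ha : a ≠ 0) (hb : b ≠ 0)
    (h : x.1 * v.1 * (x.2 + v.2) * (a * b) = v.1 * b + x.1 * v.1 + x.1 * a) :
    ∃ y z : F × F, Rel x y ∧ Rel y z ∧ Rel z v ∧ y.1 = a ∧ z.1 = b := by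
  have h2' : (2 : F) = 0 := CharTwo.two_eq_zero
  refine ⟨(a, x.2 + 1 / (x.1 * a)), (b, v.2 + 1 / (v.1 * b)), ?_, ?_, ?_, rfl, rfl⟩
  · unfold Rel
    have e : x.2 + (x.2 + 1 / (x.1 * a)) = 1 / (x.1 * a) := by
      linear_combination x.2 * h2'
    simp only
    rw [e, mul_one_div_cancel (mul_ne_zero hx ha)]
  · unfold Rel
    simp only
    have e : x.1 * v.1 * (a * b * (x.2 + 1 / (x.1 * a) + (v.2 + 1 / (v.1 * b)))) =
        x.1 * v.1 * 1 := by
      have e2 : x.1 * v.1 * (a * b * (x.2 + 1 / (x.1 * a) + (v.2 + 1 / (v.1 * b)))) =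
          x.1 * v.1 * (x.2 + v.2) * (a * b) + v.1 * b + x.1 * a := by
        field_simp
        ring
      rw [e2, h]
      linear_combination (v.1 * b + x.1 * a) * h2'
    exact mul_left_cancel₀ (mul_ne_zero hx hv) e
  · unfold Rel
    have e : v.2 + 1 / (v.1 * b) + v.2 = 1 / (v.1 * b) := by
      linear_combination v.2 * h2'
    simp only
    rw [e, mul_comm b v.1, mul_one_div_cancel (mul_ne_zero hv hb)]

/-- a copy of the four-cycle -/
lemma four_contained {V : Type*} {H : SimpleGraph V} (f : Fin 4 → V) (hf : Function.Injective f)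
    (h0 : H.Adj (f 0) (f 1)) (h1 : H.Adj (f 1) (f 2)) (h2 : H.Adj (f 2) (f 3))
    (h3 : H.Adj (f 3) (f 0)) : (SimpleGraph.cycleGraph 4).IsContained H := by
  refine ⟨⟨⟨f, ?_⟩, hf⟩⟩
  intro a b hab
  rw [SimpleGraph.cycleGraph_adj] at hab
  fin_cases a <;> fin_cases b <;>
    first
    | exact h0
    | exact h1
    | exact h2
    | exact h3
    | exact h0.symm
    | exact h1.symm
    | exact h2.symm
    | exact h3.symm
    | (exfalso; revert hab; decide)

/-- an induced graph has no four-cycle -/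
lemma four_free {n : ℕ} (e : Fin n ↪ F × F) :
    (SimpleGraph.cycleGraph 4).Free (Gr.comap e) := by
  rintro ⟨⟨f, hf⟩⟩
  have hadj : ∀ a b : Fin 4, (SimpleGraph.cycleGraph 4).Adj a b → Rel (e (f a)) (e (f b)) :=
    fun a b h => f.map_adj h
  have h01 := hadj 0 1 (by rw [SimpleGraph.cycleGraph_adj]; decide)
  have h12 := hadj 1 2 (by rw [SimpleGraph.cycleGraph_adj]; decide)
  have h03 := hadj 0 3 (by rw [SimpleGraph.cycleGraph_adj]; decide)
  have h32 := hadj 3 2 (by rw [SimpleGraph.cycleGraph_adj]; decide)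
  have h := no_four h01 h12 h03 h32 (fun h => by
    have := hf (e.injective h)
    exact absurd this (by decide))
  have := hf (e.injective h)
  exact absurd this (by decide)

/-- an induced graph has no triangle -/
lemma three_free {ψ : F → ℤ} (hψ : IsChar ψ) {n : ℕ} (e : Fin n ↪ F × F)
    (he : ∀ i, ψ (e i).1 = -1) : (Gr.comap e).CliqueFree 3 := by
  intro s hs
  rw [SimpleGraph.is3Clique_iff] at hs
  obtain ⟨a, b, c, h1, h2, h3, -⟩ := hs
  exact no_three hψ (he a) (he b) (he c) h1 h3 h2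

/-- the induced graph is saturated -/
lemma sat_of {ψ : F → ℤ} (hψ : IsChar ψ) {n : ℕ} (e : Fin n ↪ F × F)
    (he : ∀ i, ψ (e i).1 = -1) (A : Finset F)
    (hA : ∀ x : F × F, x.1 ∈ A → ψ x.1 = -1 → ∃ i, e i = x)
    (hp : ∀ x v : F × F, ψ x.1 = -1 → ψ v.1 = -1 → ¬ Rel x v → x ≠ v →
      ∃ a b : F, a ∈ A ∧ b ∈ A ∧ ψ a = -1 ∧ ψ b = -1 ∧
        x.1 * v.1 * (x.2 + v.2) * (a * b) = v.1 * b + x.1 * v.1 + x.1 * a)
    (u v : Fin n) (huv : u ≠ v) (hadj : ¬ (Gr.comap e).Adj u v) :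
    (SimpleGraph.cycleGraph 4).IsContained (Gr.comap e ⊔ SimpleGraph.edge u v) := by
  have hnz : ∀ x, ψ x = -1 → x ≠ 0 := by
    rintro x hx rfl
    rw [hψ.zero] at hx
    norm_num at hx
  have hr : ¬ Rel (e u) (e v) := hadj
  obtain ⟨a, b, ha, hb, ha', hb', hab⟩ := hp (e u) (e v) (he u) (he v) hr
    (fun h => huv (e.injective h))
  obtain ⟨y, z, r1, r2, r3, f1, f2⟩ := path (hnz _ (he u)) (hnz _ (he v)) (hnz _ ha')
    (hnz _ hb') hab
  obtain ⟨i, rfl⟩ := hA y (f1 ▸ ha) (f1 ▸ ha')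
  obtain ⟨j, rfl⟩ := hA z (f2 ▸ hb) (f2 ▸ hb')
  have kne : ∀ i j : Fin n, Rel (e i) (e j) → i ≠ j := by
    rintro i j h rfl
    exact Rel.irrefl _ h
  have g1 : u ≠ i := kne _ _ r1
  have g2 : i ≠ j := kne _ _ r2
  have g3 : j ≠ v := kne _ _ r3
  have g4 : u ≠ j := by
    rintro rfl
    exact hr r3
  have g5 : i ≠ v := by
    rintro rfl
    exact hr r1
  have kad : ∀ i j : Fin n, Rel (e i) (e j) → (Gr.comap e ⊔ SimpleGraph.edge u v).Adj i j :=
    fun i j h => Or.inl h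
  refine four_contained ![u, i, j, v] ?_ (kad _ _ r1) (kad _ _ r2) (kad _ _ r3)
    (Or.inr ((SimpleGraph.edge_adj u v v u).2 ⟨Or.inr ⟨rfl, rfl⟩, huv.symm⟩))
  intro a b hab
  fin_cases a <;> fin_cases b <;> first
    | rfl
    | exact absurd hab huv
    | exact absurd hab.symm huv
    | exact absurd hab g1
    | exact absurd hab g2
    | exact absurd hab g3
    | exact absurd hab g4
    | exact absurd hab g5
    | exact absurd hab.symm g1
    | exact absurd hab.symm g2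
    | exact absurd hab.symm g3
    | exact absurd hab.symm g4
    | exact absurd hab.symm g5

end Graph

section Class

variable {F : Type*} [Field F] [Fintype F] [CharP F 2] [DecidableEq F]

/-- the small set of first coordinates -/
theorem exists_A {ψ : F → ℤ} (hψ : IsChar ψ) (N : ℕ) (hN : 192 ≤ N)
    (hq : Fintype.card F = 64 * N) (hlt : (64 * N) ^ 4 * 8 * 63 ^ N < 64 ^ N) :
    ∃ A : Finset F, #A ≤ 8 * N ∧ ∀ x v : F × F, ψ x.1 = -1 → ψ v.1 = -1 → ¬ Rel x v → x ≠ v →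
      ∃ a b : F, a ∈ A ∧ b ∈ A ∧ ψ a = -1 ∧ ψ b = -1 ∧
        x.1 * v.1 * (x.2 + v.2) * (a * b) = v.1 * b + x.1 * v.1 + x.1 * a := by
  classical
  let π : Type _ := {p : (F × F) × (F × F) //
    ψ p.1.1 = -1 ∧ ψ p.2.1 = -1 ∧ ¬ Rel p.1 p.2 ∧ p.1 ≠ p.2}
  have hfam : ∀ p : π, ∃ (G : Finset F) (α β : F → F), Fintype.card F ≤ 8 * #G ∧
      (∀ i ∈ G, ∀ j ∈ G, α i = α j → i = j) ∧ (∀ i ∈ G, ∀ j ∈ G, β i = β j → i = j) ∧
      ∀ i ∈ G, ψ (α i) = -1 ∧ ψ (β i) = -1 ∧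
        p.1.1.1 * p.1.2.1 * (p.1.1.2 + p.1.2.2) * (α i * β i) =
          p.1.2.1 * β i + p.1.1.1 * p.1.2.1 + p.1.1.1 * α i := by
    intro p
    apply fam hψ (by omega) p.2.1 p.2.2.1 p.2.2.2.1
    rintro ⟨h1, h2⟩
    exact p.2.2.2.2 (Prod.ext h1 (CharTwo.add_eq_zero.1 h2))
  choose G α β hG hα hβ hk using hfam
  let f : π → F → Finset F := fun p i => {α p i, β p i}
  have hgr : ∀ p : π, ∃ s : Finset F, s ⊆ G p ∧ #s = N ∧
      (∀ g ∈ s, ∀ g' ∈ s, g ≠ g' → Disjoint (f p g) (f p g')) := by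
    intro p
    apply greedy (G p) (f p) 2 2 (fun g _ => by simp [f]) (fun g _ => card_le_two) ?_ N ?_
    · intro b
      have h1 : {g ∈ G p | b ∈ f p g} ⊆ {g ∈ G p | α p g = b} ∪ {g ∈ G p | β p g = b} := by
        intro g hg
        simp only [f, mem_filter, mem_insert, mem_singleton, mem_union] at hg ⊢
        rcases hg with ⟨h1, h2 | h2⟩
        · exact Or.inl ⟨h1, h2.symm⟩
        · exact Or.inr ⟨h1, h2.symm⟩
      have h2 : #{g ∈ G p | α p g = b} ≤ 1 := by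
        rw [card_le_one]
        intro x hx y hy
        rw [mem_filter] at hx hy
        exact hα p x hx.1 y hy.1 (hx.2.trans hy.2.symm)
      have h3 : #{g ∈ G p | β p g = b} ≤ 1 := by
        rw [card_le_one]
        intro x hx y hy
        rw [mem_filter] at hx hy
        exact hβ p x hx.1 y hy.1 (hx.2.trans hy.2.symm)
      calc _ ≤ _ := card_le_card h1
        _ ≤ _ := card_union_le _ _
        _ ≤ 2 := by omega
    · have h1 := hG p
      omega
  choose s hs1 hs2 hs3 using hgr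
  have hcard : Fintype.card π ≤ (64 * N) ^ 4 := by
    calc Fintype.card π ≤ Fintype.card ((F × F) × (F × F)) := Fintype.card_subtype_le _
      _ = (64 * N) ^ 4 := by
          simp only [Fintype.card_prod, hq]
          ring
  obtain ⟨A, hA1, hA2⟩ := exists_class (k := 8) 2 (by norm_num) f s N (8 * N) hs2
    (fun p g _ => card_le_two) hs3
    (lt_of_le_of_lt (Nat.mul_le_mul_right _ (Nat.mul_le_mul_right _ hcard)) hlt) (by omega)
  refine ⟨A, hA1, fun x v h1 h2 h3 h4 => ?_⟩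
  obtain ⟨g, hg, hgA⟩ := hA2 ⟨(x, v), h1, h2, h3, h4⟩
  obtain ⟨k1, k2, k3⟩ := hk ⟨(x, v), h1, h2, h3, h4⟩ g (hs1 _ hg)
  exact ⟨_, _, hgA (by simp [f]), hgA (by simp [f]), k1, k2, k3⟩

end Class

/-- the numbers -/
lemma numbers : ∃ N0 : ℕ, ∀ N ≥ N0, (64 * N) ^ 4 * 8 * 63 ^ N < 64 ^ N := by
  have hr1 : |(63 / 64 : ℝ)| < 1 := by
    rw [abs_of_nonneg (by positivity)]
    norm_num
  have h := tendsto_pow_const_mul_const_pow_of_abs_lt_one 4 hr1
  have h2 := (h.eventually (gt_mem_nhds (show (0 : ℝ) < 1 / (64 ^ 4 * 8) by positivity)))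
  obtain ⟨N0, hN0⟩ := Filter.eventually_atTop.1 h2
  refine ⟨N0, fun N hN => ?_⟩
  have h3 := hN0 N hN
  have h4 : (0 : ℝ) < 64 ^ N := by positivity
  have h5 : (63 / 64 : ℝ) ^ N * 64 ^ N = 63 ^ N := by
    rw [← mul_pow]
    norm_num
  have h6 : ((64 * N) ^ 4 * 8 * 63 ^ N : ℝ) < 64 ^ N := by
    rw [← h5]
    calc ((64 * N) ^ 4 * 8 * ((63 / 64) ^ N * 64 ^ N) : ℝ)
        = (64 ^ 4 * 8) * ((N : ℝ) ^ 4 * (63 / 64) ^ N) * 64 ^ N := by ring
      _ < (64 ^ 4 * 8) * (1 / (64 ^ 4 * 8)) * 64 ^ N := by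
          apply mul_lt_mul_of_pos_right _ h4
          apply mul_lt_mul_of_pos_left h3
          positivity
      _ = 64 ^ N := by
          rw [mul_one_div_cancel (by positivity), one_mul]
  exact_mod_cast h6

lemma key2 : ∀ a b : ZMod 2, (if a + b = 0 then (1 : ℤ) else -1) =
    (if a = 0 then 1 else -1) * (if b = 0 then 1 else -1) := by decide

/-- the field and its character -/
lemma exists_field (j : ℕ) : ∃ (F : Type) (_ : Field F) (_ : Fintype F) (_ : CharP F 2)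
    (ψ : F → ℤ), Fintype.card F = 64 * 2 ^ j ∧ IsChar ψ := by
  classical
  have : Fact (Nat.Prime 2) := ⟨Nat.prime_two⟩
  let F := GaloisField 2 (j + 6)
  have hF : Fintype F := Fintype.ofFinite F
  have hc : Fintype.card F = 2 ^ (j + 6) := by
    rw [← Nat.card_eq_fintype_card]
    exact GaloisField.card 2 (j + 6) (by omega)
  obtain ⟨φ, hφ⟩ : ∃ φ : Module.Dual (ZMod 2) F, φ 1 ≠ 0 := by
    by_contra hcon
    push Not at hcon
    exact one_ne_zero ((Module.forall_dual_apply_eq_zero_iff (ZMod 2) (1 : F)).1 hcon)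
  refine ⟨F, inferInstance, hF, inferInstance, fun x => if φ x = 0 then 1 else -1, ?_, ?_⟩
  · rw [hc, pow_add]
    ring
  · refine ⟨fun x => ?_, fun x y => ?_, ⟨1, by simp [hφ]⟩⟩
    · by_cases hx : φ x = 0 <;> simp [hx]
    · rw [map_add]
      convert key2 (φ x) (φ y)

/-- for every large `n` -/
theorem main : ∃ n₀ : ℕ, ∀ n ≥ n₀, ∃ G : SimpleGraph (Fin n),
    (SimpleGraph.cycleGraph 4).Free G ∧ G.CliqueFree 3 ∧
    ∀ u v, u ≠ v → ¬ G.Adj u v →
      (SimpleGraph.cycleGraph 4).IsContained (G ⊔ SimpleGraph.edge u v) := by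
  classical
  obtain ⟨N0, hN0⟩ := numbers
  refine ⟨2048 * (2 ^ (N0 + 192)) ^ 2 + 1, fun n hn => ?_⟩
  have hex : ∃ j : ℕ, n ≤ 2048 * (2 ^ j) ^ 2 := by
    refine ⟨n, ?_⟩
    have h1 : n < 2 ^ n := Nat.lt_two_pow_self
    nlinarith
  obtain ⟨j, hj1, hj2⟩ : ∃ j, n ≤ 2048 * (2 ^ j) ^ 2 ∧ ∀ i < j, ¬ n ≤ 2048 * (2 ^ i) ^ 2 :=
    ⟨Nat.find hex, Nat.find_spec hex, fun i hi => Nat.find_min hex hi⟩
  have hjN : N0 + 192 < j := by
    by_contra hcon
    have h1 : 2 ^ j ≤ 2 ^ (N0 + 192) := Nat.pow_le_pow_right (by norm_num) (not_lt.1 hcon)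
    have h2 : 2048 * (2 ^ j) ^ 2 ≤ 2048 * (2 ^ (N0 + 192)) ^ 2 :=
      Nat.mul_le_mul_left _ (Nat.pow_le_pow_left h1 2)
    omega
  obtain ⟨i, rfl⟩ : ∃ i, j = i + 1 := ⟨j - 1, by omega⟩
  have hlow : 2048 * (2 ^ i) ^ 2 < n := not_le.1 (hj2 i (by omega))
  set N := 2 ^ (i + 1) with hN
  have hN1 : i + 1 < N := Nat.lt_two_pow_self
  have hN4 : N = 2 * 2 ^ i := by
    rw [hN, pow_succ]
    ring
  obtain ⟨F, hField, hFin, hChar, ψ, hc, hψ⟩ := exists_field (i + 1)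
  rw [← hN] at hc
  obtain ⟨A, hA, hp⟩ := exists_A hψ N (by omega) hc (hN0 N (by omega))
  -- the vertices
  set H : Finset F := {x : F | ψ x = -1} with hH
  have hHc : #H = 32 * N := by
    have h1 : ∑ x : F, (1 - ψ x) = 2 * (#H : ℤ) := by
      have h2 : ∀ x : F, 1 - ψ x = if ψ x = -1 then (2 : ℤ) else 0 := by
        intro x
        rcases hψ.val x with h | h <;> rw [h] <;> norm_num
      rw [Finset.sum_congr rfl fun x _ => h2 x, ← Finset.sum_filter, Finset.sum_const,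
        nsmul_eq_mul, mul_comm]
    rw [Finset.sum_sub_distrib, hψ.sum_all] at h1
    simp only [sum_const, card_univ, nsmul_eq_mul, mul_one, sub_zero, hc] at h1
    omega
  have hV : #((A ∩ H) ×ˢ (univ : Finset F)) ≤ n := by
    rw [card_product, card_univ, hc]
    calc #(A ∩ H) * (64 * N) ≤ (8 * N) * (64 * N) :=
          Nat.mul_le_mul_right _ ((card_le_card inter_subset_left).trans hA)
      _ = 2048 * (2 ^ i) ^ 2 := by
          rw [hN4]
          ring
      _ ≤ n := hlow.le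
  have hU : n ≤ #(H ×ˢ (univ : Finset F)) := by
    rw [card_product, card_univ, hc, hHc]
    calc n ≤ 2048 * N ^ 2 := hj1
      _ = 32 * N * (64 * N) := by ring
  obtain ⟨S, hS1, hS2, hS3⟩ := Finset.exists_subsuperset_card_eq
    (Finset.product_subset_product inter_subset_right (subset_univ _)) hV hU
  let eq := Finset.equivFinOfCardEq hS3
  let e : Fin n ↪ F × F := eq.symm.toEmbedding.trans (Function.Embedding.subtype _)
  have he : ∀ x ∈ S, ∃ k, e k = x := by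
    intro x hx
    refine ⟨eq ⟨x, hx⟩, ?_⟩
    simp [e]
  have he2 : ∀ k, ψ (e k).1 = -1 := by
    intro k
    have h1 : e k ∈ S := (eq.symm k).2
    have h2 := hS2 h1
    rw [mem_product, hH, mem_filter] at h2
    exact h2.1.2
  refine ⟨Gr.comap e, four_free e, three_free hψ e he2, fun u v huv hadj => ?_⟩
  refine sat_of hψ e he2 A (fun x hx hx' => he x (hS1 ?_)) hp u v huv hadj
  rw [mem_product, mem_inter, hH, mem_filter]
  exact ⟨⟨hx, mem_univ _, hx'⟩, mem_univ _⟩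

end Pool.Agent.Q257.C4
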